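import Pool.Agent.MWHQ.Stmts

/-!
# Row BB2 of squad MWHQ
-/

namespace Pool.Agent.MWHQ.H8

open Pool.Agent.Helper14_MV Pool.Agent.Helper2_MV Pool.Agent.MVO Pool.Agent.MWL Pool.Agent.MWS
  Pool.Agent.MWH

/-- row BB2 -/
theorem bb2 (h1 : MWL.TrnStmt) (h2 : MWA.CnpStmt) : Bb2Stmt := by
  intro n β hβ
  obtain ⟨-, hJ, hD, -, -, -⟩ := h2 n β hβ.pos hβ.ap
  obtain ⟨j0, j1, j2⟩ := hJ.1 hβ.j3
  have d0 := hD ⟨j0, j2⟩
  constructor
  · have h3 : Ab n (FC.ofFIC β) 2 (v3 1 1 1) 2 := j2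
    have h4 := ((h1 n (FC.ofFIC β) 2 (v3 1 1 1) 2).2.2.1 (Bit.J 3).a (fun j hj => by
      have : j = 0 ∨ j = 1 ∨ j = 2 := by omega
      rcases this with h | h | h <;> subst h <;> rfl)).1 h3
    exact h4
  · have h3 : Ab n (FC.ofFIC β) 1 (v2 1 2) 0 := d0
    have h4 := ((h1 n (FC.ofFIC β) 1 (v2 1 2) 0).2.2.1 (Bit.D 0).a (fun j hj => by
      have : j = 0 ∨ j = 1 := by omega
      rcases this with h | h <;> subst h <;> rfl)).1 h3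
    exact h4

end Pool.Agent.MWHQ.H8
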